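import Pool.Agent.Y719.EL.EC

/-!
# Continuation or transcendence on the edge, for all elliptic curves over all number fields at once

We consider countably many elliptic curves `E_i` over number fields `K_i` (for example all elliptic
curves over all number fields, up to isomorphism), twisted by functions `ψ_i` on the finite places
with `|ψ_i| ≤ 1` (for example all Hecke characters of finite order, with value `0` at the ramified
places, or vertical shifts `ψ(v) = Nv^(-iα)`), and all finite products of integral powers of the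
functions `L(E_i × ψ_i, s)`.  The Euler products converge for `Re s > 3/2`.  The theorem says that at
almost every point `3/2 + iτ` of the edge one of two things happens for every such product: either
it continues holomorphically to a neighbourhood of this point, or its boundary value at this point is
transcendental over the field generated by the values at this point of all such products that do
continue (for instance those of modular elliptic curves), of any countable set of (locally) analytic
functions given in advance (such as `s`, `p^s`, `Γ(s)`, all zeta functions of number fields), and of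
all derivatives of all these functions.  So the failure of the continuation of `L(E, s)` across the
edge on a set of positive measure, for a single `E`, would mean that its boundary values have no
algebraic relation whatsoever with any of the other `L`-series that do continue.
-/

set_option autoImplicit false

namespace Pool.Agent.Results.MP_7ed9c3_nt.ContinuationOrTranscendence

open NumberField IsDedekindDomain MeasureTheory Filter Topology

/-- `W v` is, for every finite place `v`, an integral model of `E` with discriminant minimal at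
`v`. -/
def MinimalModels {K : Type} [Field K] [NumberField K] (E : WeierstrassCurve K)
    (W : HeightOneSpectrum (𝓞 K) → WeierstrassCurve (𝓞 K)) : Prop :=
  ∀ v : HeightOneSpectrum (𝓞 K),
    (∃ C : WeierstrassCurve.VariableChange K, C • (W v).map (algebraMap (𝓞 K) K) = E) ∧
    ∀ W' : WeierstrassCurve (𝓞 K),
      (∃ C : WeierstrassCurve.VariableChange K, C • W'.map (algebraMap (𝓞 K) K) = E) →
      ∀ n : ℕ, (W v).Δ ∈ v.asIdeal ^ n → W'.Δ ∈ v.asIdeal ^ n

/-- An elliptic curve `E` over a number field `K`, with its minimal models, and a function `ψ` on the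
finite places of `K` with `|ψ| ≤ 1`. -/
structure Datum where
  /-- the number field -/
  K : Type
  /-- `K` is a field -/
  [field : Field K]
  /-- `K` is a number field -/
  [numberField : NumberField K]
  /-- the curve -/
  E : WeierstrassCurve K
  /-- `E` is an elliptic curve -/
  elliptic : E.IsElliptic
  /-- the minimal models -/
  W : HeightOneSpectrum (𝓞 K) → WeierstrassCurve (𝓞 K)
  /-- they are minimal -/
  minimal : MinimalModels E W
  /-- the twist -/
  ψ : HeightOneSpectrum (𝓞 K) → ℂ
  /-- its values have absolute value at most one -/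
  norm_ψ : ∀ v, ‖ψ v‖ ≤ 1

open Classical in
/-- The Euler factor at `v`, `(1 - a_v ψ(v) Nv^{-s} + ψ(v)² Nv^{1-2s})⁻¹` if the reduction at `v` is
good and `(1 - a_v ψ(v) Nv^{-s})⁻¹` if it is bad, where `a_v` is `Nv` minus the number of affine
points of the reduction of `W v` (for bad reduction this is `1`, `-1`, `0` in the split
multiplicative, non-split multiplicative, additive case). -/
noncomputable def localFactor {K : Type} [Field K] [NumberField K]
    (W : HeightOneSpectrum (𝓞 K) → WeierstrassCurve (𝓞 K)) (ψ : HeightOneSpectrum (𝓞 K) → ℂ)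
    (v : HeightOneSpectrum (𝓞 K)) (s : ℂ) : ℂ :=
  (1 - ((Ideal.absNorm v.asIdeal : ℂ)
        - (Nat.card {xy : (𝓞 K ⧸ v.asIdeal) × (𝓞 K ⧸ v.asIdeal) //
            ((W v).map (Ideal.Quotient.mk v.asIdeal)).toAffine.Equation xy.1 xy.2} : ℂ))
        * ψ v * (Ideal.absNorm v.asIdeal : ℂ) ^ (-s)
    + (if (W v).Δ ∈ v.asIdeal then 0 else (Ideal.absNorm v.asIdeal : ℂ))
        * ψ v ^ 2 * (Ideal.absNorm v.asIdeal : ℂ) ^ (-2 * s))⁻¹

/-- The Euler product `L(E × ψ, s)`. -/
noncomputable def LSeries (D : Datum) (s : ℂ) : ℂ :=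
  letI := D.field
  letI := D.numberField
  ∏' v : HeightOneSpectrum (𝓞 D.K), localFactor D.W D.ψ v s

/-- The product of the functions `L(E_i × ψ_i, s)` to the powers `m i`. -/
noncomputable def product {ι : Type} (D : ι → Datum) (m : ι →₀ ℤ) (s : ℂ) : ℂ :=
  ∏ i ∈ m.support, LSeries (D i) s ^ m i

/-- The point `3/2 + iτ` of the edge. -/
noncomputable def edge (τ : ℝ) : ℂ := 3 / 2 + τ * Complex.I

/-- The angle `|s - (3/2 + iτ)| ≤ C (Re s - 3/2)` in the half-plane `Re s > 3/2`. -/
def angle (τ C : ℝ) : Set ℂ :=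
  {s : ℂ | 3 / 2 < s.re ∧ ‖s - edge τ‖ ≤ C * (s.re - 3 / 2)}

/-- `φ` is a holomorphic continuation of `f`, given for `Re s > 3/2`, to a neighbourhood of
`3/2 + iτ`: it is analytic there and agrees with `f` for `Re s > 3/2` near this point. -/
def IsContinuation (f : ℂ → ℂ) (τ : ℝ) (φ : ℂ → ℂ) : Prop :=
  AnalyticAt ℂ φ (edge τ) ∧ ∀ᶠ s in 𝓝 (edge τ), 3 / 2 < s.re → f s = φ s

/-- The values at `s`, of all orders of derivatives, of the functions in `𝒜` which are analytic at
`s`. -/
def values (𝒜 : Set (ℂ → ℂ)) (s : ℂ) : Set ℂ :=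
  {z : ℂ | ∃ g ∈ 𝒜, ∃ k : ℕ, AnalyticAt ℂ g s ∧ iteratedDeriv k g s = z}

/-- The values at `3/2 + iτ`, of all orders of derivatives, of the holomorphic continuations of all
the products `product D m` which continue to a neighbourhood of `3/2 + iτ`. -/
def continued {ι : Type} (D : ι → Datum) (τ : ℝ) : Set ℂ :=
  {z : ℂ | ∃ (m : ι →₀ ℤ) (φ : ℂ → ℂ) (k : ℕ), IsContinuation (product D m) τ φ ∧
    iteratedDeriv k φ (edge τ) = z}

/-- **Continuation or transcendence.**  Let `D i` be countably many data, elliptic curves `E_i` over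
number fields `K_i` with twists `ψ_i`.  There are boundary functions `l m`, one for each finitely
supported vector `m` of integers, such that

* for all real `τ` outside a set of Hausdorff dimension `0`, for all `m`, the number `l m τ` is not
  zero and `product D m s` tends to it as `s` tends to `3/2 + iτ` in any angle in `Re s > 3/2`;
* for every countable set `𝒜` of functions, for almost every real `τ`, for all `m`: either
  `product D m` has a holomorphic continuation to a neighbourhood of `3/2 + iτ`, or `l m τ` is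
  transcendental over the field generated over `ℚ` by the values at `3/2 + iτ`, of all orders of
  derivatives, of all functions in `𝒜` analytic there and of the continuations of all the products
  which have a holomorphic continuation to a neighbourhood of `3/2 + iτ`. -/
theorem result {ι : Type} [Countable ι] (D : ι → Datum) :
    ∃ l : (ι →₀ ℤ) → ℝ → ℂ,
      (∃ N : Set ℝ, dimH N = 0 ∧ ∀ τ : ℝ, τ ∉ N → ∀ m, l m τ ≠ 0 ∧ ∀ C : ℝ,
        Tendsto (product D m) (𝓝[angle τ C] (edge τ)) (𝓝 (l m τ))) ∧
      ∀ 𝒜 : Set (ℂ → ℂ), 𝒜.Countable → ∀ᵐ τ : ℝ, ∀ m,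
        (∃ φ, IsContinuation (product D m) τ φ) ∨
        Transcendental (IntermediateField.adjoin ℚ (values 𝒜 (edge τ) ∪ continued D τ))
          (l m τ) := by
  have hex : ∀ i, ∃ b : Pool.Agent.TH339.MP.PP → ℂ, ∃ h : ℂ → ℂ, ∃ N : ℝ,
      (∀ x, ‖b x‖ ≤ N / (x.2 + 1 : ℕ)) ∧
      (∀ τ, AnalyticAt ℂ h (Pool.Agent.TH345.ET.ep τ)) ∧ (∀ τ, h (Pool.Agent.TH345.ET.ep τ) ≠ 0) ∧
      ∀ s : ℂ, 1 < s.re →
        LSeries (D i) (s + 1 / 2) = h s * Complex.exp (Pool.Agent.TH339.MP.FF b s) := by
    intro i
    let _ := (D i).field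
    let _ := (D i).numberField
    have hlf : ∀ v s, localFactor (D i).W (D i).ψ v s =
        Pool.Agent.Y719.EL.EC.telf (D i).W (D i).ψ v s := by
      intro v s
      have h1 : (Nat.card {xy : (𝓞 (D i).K ⧸ v.asIdeal) × (𝓞 (D i).K ⧸ v.asIdeal) //
              (((D i).W v).map (Ideal.Quotient.mk v.asIdeal)).toAffine.Equation xy.1 xy.2}) =
          Pool.Agent.TH339.MP.affc (((D i).W v).map (Ideal.Quotient.mk v.asIdeal)) := by
        unfold Pool.Agent.TH339.MP.affc
        refine Nat.card_congr (Equiv.subtypeEquivRight fun q => ?_)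
        exact WeierstrassCurve.Affine.equation_iff ..
      unfold localFactor Pool.Agent.Y719.EL.EC.telf Pool.Agent.TH339.MP.av
        Pool.Agent.TH339.MP.nm
      rw [h1]
      push_cast
      rfl
    obtain ⟨b, hb, hprod⟩ := Pool.Agent.Y719.EL.EC.telf_hasProd (D i).W (D i).norm_ψ
    refine ⟨b, Pool.Agent.Y719.EL.EC.hT (D i).W (D i).ψ, _, hb,
      Pool.Agent.Y719.EL.EC.hT_analytic (D i).W (D i).norm_ψ,
      Pool.Agent.Y719.EL.EC.hT_ne (D i).W (D i).norm_ψ, fun s hs => ?_⟩
    rw [← (hprod s hs).tprod_eq]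
    exact tprod_congr fun v => hlf v _
  choose b h N hb hh hh0 hL using hex
  have hP : ∀ (m : ι →₀ ℤ) (s : ℂ), 3 / 2 < s.re →
      product D m s = Pool.Agent.Y719.EL.H.hm h m (s - 1 / 2) *
        Complex.exp (Pool.Agent.TH339.MP.FF (Pool.Agent.Y719.EL.H.cb b m) (s - 1 / 2)) := by
    intro m s hs
    have h1 : 1 < (s - 1 / 2).re := by
      have : (s - 1 / 2).re = s.re - 1 / 2 := by simp
      rw [this]
      linarith
    rw [Pool.Agent.Y719.EL.H.exp_cb b hb m h1]
    refine Finset.prod_congr rfl fun i _ => ?_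
    rw [← hL i _ h1, sub_add_cancel]
  have hsub : ∀ τ : ℝ, edge τ - 1 / 2 = Pool.Agent.TH345.ET.ep τ := by
    intro τ
    unfold edge Pool.Agent.TH345.ET.ep
    ring
  have hep : ∀ τ : ℝ, Pool.Agent.TH345.ET.ep τ + 1 / 2 = edge τ := by
    intro τ
    rw [← hsub, sub_add_cancel]
  have hto : ∀ τ : ℝ, Tendsto (fun s : ℂ => s - 1 / 2) (𝓝 (edge τ))
      (𝓝 (Pool.Agent.TH345.ET.ep τ)) := by
    intro τ
    have h8 : Tendsto (fun s : ℂ => s - 1 / 2) (𝓝 (edge τ)) (𝓝 (edge τ - 1 / 2)) :=
      (continuous_id.sub continuous_const).tendsto _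
    rwa [hsub] at h8
  have hto' : ∀ τ : ℝ, Tendsto (fun s : ℂ => s + 1 / 2) (𝓝 (Pool.Agent.TH345.ET.ep τ))
      (𝓝 (edge τ)) := by
    intro τ
    have h8 : Tendsto (fun s : ℂ => s + 1 / 2) (𝓝 (Pool.Agent.TH345.ET.ep τ))
        (𝓝 (Pool.Agent.TH345.ET.ep τ + 1 / 2)) :=
      (continuous_id.add continuous_const).tendsto _
    rwa [hep] at h8
  have hre : ∀ s : ℂ, (s - 1 / 2).re = s.re - 1 / 2 := fun s => by simp
  have hre' : ∀ s : ℂ, (s + 1 / 2).re = s.re + 1 / 2 := fun s => by simp
  -- continuations
  have hC1 : ∀ (m : ι →₀ ℤ) (τ : ℝ) (φ : ℂ → ℂ), IsContinuation (product D m) τ φ →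
      Pool.Agent.Y719.EL.H.IsCont (Pool.Agent.Y719.EL.H.cb b m)
        (Pool.Agent.Y719.EL.H.hm h m) τ (fun s => φ (s + 1 / 2)) := by
    intro m τ φ hφ
    refine ⟨?_, ?_⟩
    · refine AnalyticAt.fun_comp (g := φ) (f := fun s : ℂ => s + 1 / 2) ?_
        (analyticAt_id.add analyticAt_const)
      rw [hep]
      exact hφ.1
    · filter_upwards [(hto' τ).eventually hφ.2] with s hs hs1
      have h1 : 3 / 2 < (s + 1 / 2).re := by
        rw [hre']
        linarith
      rw [← hs h1, hP m _ h1, add_sub_cancel_right]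
  have hC2 : ∀ (m : ι →₀ ℤ) (τ : ℝ), Pool.Agent.TH345.ET.Cont (Pool.Agent.Y719.EL.H.cb b m)
      (Pool.Agent.Y719.EL.H.hm h m) τ → ∃ φ, IsContinuation (product D m) τ φ := by
    rintro m τ ⟨φ, hφ, hev⟩
    refine ⟨fun s => φ (s - 1 / 2), ?_, ?_⟩
    · refine AnalyticAt.fun_comp (g := φ) (f := fun s : ℂ => s - 1 / 2) ?_
        (analyticAt_id.sub analyticAt_const)
      rw [hsub]
      exact hφ
    · filter_upwards [(hto τ).eventually hev] with s hs hs1
      have h1 : 1 < (s - 1 / 2).re := by
        rw [hre]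
        linarith
      rw [hP m s hs1]
      exact hs h1
  refine ⟨Pool.Agent.Y719.EL.H.lm b h, ⟨Pool.Agent.Y719.EL.H.exc b,
    Pool.Agent.Y719.EL.H.dim_exc b hb, fun τ hτ m => ⟨Pool.Agent.Y719.EL.H.lm_ne b hh0 m τ,
      fun C => ?_⟩⟩, fun 𝒜 hA => ?_⟩
  · have h1 := Pool.Agent.Y719.EL.H.lm_angle b hb hh hh0 hτ m C
    have h2 : Tendsto (fun s : ℂ => s - 1 / 2) (𝓝[angle τ C] (edge τ))
        (𝓝[Pool.Agent.Y719.EL.H.ang τ C] (Pool.Agent.TH345.ET.ep τ)) := by
      rw [tendsto_nhdsWithin_iff]
      refine ⟨(hto τ).mono_left nhdsWithin_le_nhds, ?_⟩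
      filter_upwards [self_mem_nhdsWithin] with s hs
      refine ⟨?_, ?_⟩
      · rw [hre]
        linarith [hs.1]
      · have h3 : s - 1 / 2 - Pool.Agent.TH345.ET.ep τ = s - edge τ := by
          rw [← hsub]
          ring
        rw [h3, hre]
        have h4 := hs.2
        have h5 : s.re - 1 / 2 - 1 = s.re - 3 / 2 := by ring
        rw [h5]
        exact h4
    refine (h1.comp h2).congr' ?_
    filter_upwards [self_mem_nhdsWithin] with s hs
    exact (hP m s hs.1).symm
  · have hA' : ((fun g : ℂ → ℂ => fun s : ℂ => g (s + 1 / 2)) '' 𝒜).Countable := hA.image _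
    filter_upwards [Pool.Agent.Y719.EL.H.main b hb hh hh0 hA'] with τ hτ m
    rcases hτ m with h1 | h1
    · exact Or.inl (hC2 m τ h1)
    · right
      intro halg
      apply h1
      have hder : ∀ (g : ℂ → ℂ) (k : ℕ),
          iteratedDeriv k (fun s => g (s + 1 / 2)) (Pool.Agent.TH345.ET.ep τ) =
            iteratedDeriv k g (edge τ) := by
        intro g k
        rw [iteratedDeriv_comp_add_const]
        beta_reduce
        rw [hep]
      have hle : IntermediateField.adjoin ℚ (values 𝒜 (edge τ) ∪ continued D τ) ≤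
          IntermediateField.adjoin ℚ (Pool.Agent.Y719.EL.H.dvals
            ((fun g : ℂ → ℂ => fun s : ℂ => g (s + 1 / 2)) '' 𝒜) (Pool.Agent.TH345.ET.ep τ) ∪
            {z : ℂ | ∃ (m' : ι →₀ ℤ) (φ : ℂ → ℂ) (k : ℕ),
              Pool.Agent.Y719.EL.H.IsCont (Pool.Agent.Y719.EL.H.cb b m')
                (Pool.Agent.Y719.EL.H.hm h m') τ φ ∧
              iteratedDeriv k φ (Pool.Agent.TH345.ET.ep τ) = z}) := by
        refine IntermediateField.adjoin.mono _ _ _ ?_
        rintro z (⟨g, hg, k, hga, rfl⟩ | ⟨m', φ, k, hφ, rfl⟩)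
        · left
          refine ⟨fun s => g (s + 1 / 2), ⟨g, hg, rfl⟩, k, ?_, hder g k⟩
          refine AnalyticAt.fun_comp (g := g) (f := fun s : ℂ => s + 1 / 2) ?_
            (analyticAt_id.add analyticAt_const)
          rw [hep]
          exact hga
        · right
          exact ⟨m', fun s => φ (s + 1 / 2), k, hC1 m' τ φ hφ, hder φ k⟩
      obtain ⟨P, hP', hPx⟩ := halg
      refine ⟨P.map (IntermediateField.inclusion hle).toRingHom, ?_, ?_⟩
      · rw [Polynomial.map_ne_zero_iff (IntermediateField.inclusion hle).toRingHom.injective]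
        exact hP'
      · rw [Polynomial.aeval_def, Polynomial.eval₂_map]
        rw [Polynomial.aeval_def] at hPx
        exact hPx

end Pool.Agent.Results.MP_7ed9c3_nt.ContinuationOrTranscendence
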