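import Pool.Agent.Y774.JD.EC

/-!
# Joint values of the `L`-series of elliptic curves over number fields on the edge of absolute
convergence: either dense in every long window, or a linear combination of the logarithms is bounded

The `L`-series of an elliptic curve over a number field `K` converges for `Re s > 3/2`; the first
unknown part of the Hasse-Weil conjecture is the behaviour on the edge `Re s = 3/2`.  For arbitrary
finite families of elliptic curves `E_k` over arbitrary (different) number fields `K_k`, shifts `t_k`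
and linear forms in `log L(E_k, s + it_k)`, the theorem determines when the boundary values are
jointly dense.
-/

set_option autoImplicit false

namespace Pool.Agent.Results.MP_7ed9c3_nt.JointDenseness

open NumberField IsDedekindDomain Filter Topology MeasureTheory

/-- `W v` is, for every finite place `v`, an integral model of `E` with discriminant minimal at
`v`. -/
def MinimalModels {K : Type} [Field K] [NumberField K] (E : WeierstrassCurve K)
    (W : HeightOneSpectrum (𝓞 K) → WeierstrassCurve (𝓞 K)) : Prop :=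
  ∀ v : HeightOneSpectrum (𝓞 K),
    (∃ C : WeierstrassCurve.VariableChange K, C • (W v).map (algebraMap (𝓞 K) K) = E) ∧
    ∀ W' : WeierstrassCurve (𝓞 K),
      (∃ C : WeierstrassCurve.VariableChange K, C • W'.map (algebraMap (𝓞 K) K) = E) →
      ∀ n : ℕ, (W v).Δ ∈ v.asIdeal ^ n → W'.Δ ∈ v.asIdeal ^ n

section
variable {K : Type} [Field K] [NumberField K]

/-- `a_v`, that is `Nv` minus the number of affine points of the reduction of `W v`. -/
noncomputable def frob (W : HeightOneSpectrum (𝓞 K) → WeierstrassCurve (𝓞 K))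
    (v : HeightOneSpectrum (𝓞 K)) : ℂ :=
  (Ideal.absNorm v.asIdeal : ℂ) - (Nat.card {xy : (𝓞 K ⧸ v.asIdeal) × (𝓞 K ⧸ v.asIdeal) //
    ((W v).map (Ideal.Quotient.mk v.asIdeal)).toAffine.Equation xy.1 xy.2} : ℂ)

open Classical in
/-- The inverse of the Euler factor at `v`: `1 - a_v Nv^{-s} + Nv^{1-2s}` if the reduction is good
and `1 - a_v Nv^{-s}` if it is bad. -/
noncomputable def eulerInv (W : HeightOneSpectrum (𝓞 K) → WeierstrassCurve (𝓞 K))
    (v : HeightOneSpectrum (𝓞 K)) (s : ℂ) : ℂ :=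
  1 - frob W v * (Ideal.absNorm v.asIdeal : ℂ) ^ (-s)
    + (if (W v).Δ ∈ v.asIdeal then 0 else (Ideal.absNorm v.asIdeal : ℂ))
        * (Ideal.absNorm v.asIdeal : ℂ) ^ (-2 * s)

/-- The `L`-series, as the Euler product over all finite places. -/
noncomputable def LSeries (W : HeightOneSpectrum (𝓞 K) → WeierstrassCurve (𝓞 K)) (s : ℂ) : ℂ :=
  ∏' v : HeightOneSpectrum (𝓞 K), (eulerInv W v s)⁻¹

/-- `log L(E, s) = ∑_p ∑_{v | p} log L_v(E, s)` (principal logarithms). -/
noncomputable def logL (W : HeightOneSpectrum (𝓞 K) → WeierstrassCurve (𝓞 K)) (s : ℂ) : ℂ :=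
  ∑' p : Nat.Primes, ∑ᶠ v ∈ {v : HeightOneSpectrum (𝓞 K) | ((p : ℕ) : 𝓞 K) ∈ v.asIdeal},
    -Complex.log (eulerInv W v s)

/-- `a_p`, the sum of `a_v` over the places `v` with `Nv = p`. -/
noncomputable def trace (W : HeightOneSpectrum (𝓞 K) → WeierstrassCurve (𝓞 K)) (p : ℕ) : ℂ :=
  ∑ᶠ v ∈ {v : HeightOneSpectrum (𝓞 K) | Ideal.absNorm v.asIdeal = p}, frob W v

/-- The boundary value of `log L(E, s)` at `3/2 + iτ`. -/
noncomputable def edgeLog (W : HeightOneSpectrum (𝓞 K) → WeierstrassCurve (𝓞 K)) (τ : ℝ) : ℂ :=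
  limUnder (𝓝[>] (0 : ℝ)) fun σ : ℝ => logL W (3 / 2 + σ + τ * Complex.I)

/-- The boundary value of `L(E, s)` at `3/2 + iτ`. -/
noncomputable def edgeValue (W : HeightOneSpectrum (𝓞 K) → WeierstrassCurve (𝓞 K)) (τ : ℝ) : ℂ :=
  limUnder (𝓝[>] (0 : ℝ)) fun σ : ℝ => LSeries W (3 / 2 + σ + τ * Complex.I)

end

/-- An elliptic curve `E` over a number field `K`, with minimal models. -/
structure Curve where
  /-- the field -/
  K : Type
  [field : Field K]
  [numberField : NumberField K]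
  /-- the curve -/
  E : WeierstrassCurve K
  elliptic : E.IsElliptic
  /-- the minimal models -/
  W : HeightOneSpectrum (𝓞 K) → WeierstrassCurve (𝓞 K)
  minimal : MinimalModels E W

attribute [instance] Curve.field Curve.numberField

/-- `∑_k b_k log L(E_k, s + it_k)`. -/
noncomputable def logForm {κ : Type} [Fintype κ] (c : κ → Curve) (t : κ → ℝ) (b : κ → ℂ) (s : ℂ) :
    ℂ := ∑ k, b k * logL (c k).W (s + t k * Complex.I)

/-- `∑_k b_k log L(E_k, 3/2 + i(τ + t_k))`. -/
noncomputable def edgeForm {κ : Type} [Fintype κ] (c : κ → Curve) (t : κ → ℝ) (b : κ → ℂ) (τ : ℝ) :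
    ℂ := ∑ k, b k * edgeLog (c k).W (τ + t k)

/-- `∑_p |∑_k b_k a_p(E_k) p^{-it_k}| p^{-3/2} < ∞`. -/
def AbsConv {κ : Type} [Fintype κ] (c : κ → Curve) (t : κ → ℝ) (b : κ → ℂ) : Prop :=
  Summable fun p : Nat.Primes =>
    ‖∑ k, b k * (trace (c k).W p * ((p : ℕ) : ℂ) ^ (-(t k * Complex.I)))‖ *
      ((p : ℕ) : ℝ) ^ (-(3 / 2) : ℝ)

/-- For every nonempty open set `Ω` of `ℂ^J` there are `ρ > 0` and `T₀` such that, for every real
interval of length `T ≥ T₀`, the vector `(G_j(τ))_j` is in `Ω` on a subset of measure `≥ ρ T`. -/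
def DenseInWindows {J : Type} (G : J → ℝ → ℂ) : Prop :=
  ∀ Ω : Set (J → ℂ), IsOpen Ω → Ω.Nonempty → ∃ ρ : ℝ, 0 < ρ ∧ ∃ T₀ : ℝ, 0 < T₀ ∧
    ∀ a T : ℝ, T₀ ≤ T →
      ENNReal.ofReal (ρ * T) ≤ volume {τ | τ ∈ Set.Ioc a (a + T) ∧ (fun j => G j τ) ∈ Ω}

/-- **Joint denseness.**

* For every elliptic curve over a number field `exp (log L(E, s)) = L(E, s)` for `Re s > 3/2`, and
`log L(E, s)` and `L(E, s)` have radial boundary values at `3/2 + iτ` for almost all real `τ`.
* Let `E_k` be elliptic curves over number fields `K_k`, `t_k` real numbers and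
`ℓ_j = ∑_k A_{jk} log L(E_k, s + it_k)` linear forms.  Either the boundary values of `(ℓ_j)_j` are
dense in `ℂ^J`, with a positive proportion of every long window for every open set, or
`∑_p |∑_k b_k a_p(E_k) p^{-it_k}| p^{-3/2} < ∞` for a combination `b = ∑_j m_j A_j` with `m ≠ 0`; the
first is impossible if `∑_j m_j ℓ_j` is bounded in `Re s > 3/2` for some `m ≠ 0`.
* If `∑_p |∑_k b_k a_p(E_k) p^{-it_k}| p^{-3/2} < ∞`, then `∑_k b_k log L(E_k, s + it_k)` is bounded
and has a bounded continuous extension to `Re s ≥ 3/2`.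
* If this series diverges for all `b ≠ 0`, the vectors `(L(E_k, 3/2 + i(τ + t_k)))_k` are dense in
`ℂ^κ`, with a positive proportion of every long window for every open set.
* For one elliptic curve `E` over a number field exactly one of the following holds: the values
`L(E, 3/2 + iτ)` are dense in `ℂ` in this sense, or `∑_p |a_p(E)| p^{-3/2} < ∞`. -/
theorem result :
    (∀ c : Curve, (∀ s : ℂ, 3 / 2 < s.re → Complex.exp (logL c.W s) = LSeries c.W s) ∧
      ∀ᵐ τ : ℝ, Tendsto (fun σ : ℝ => logL c.W (3 / 2 + σ + τ * Complex.I)) (𝓝[>] 0)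
          (𝓝 (edgeLog c.W τ)) ∧
        Tendsto (fun σ : ℝ => LSeries c.W (3 / 2 + σ + τ * Complex.I)) (𝓝[>] 0)
          (𝓝 (edgeValue c.W τ)) ∧ edgeValue c.W τ = Complex.exp (edgeLog c.W τ)) ∧
    (∀ (κ J : Type) [Fintype κ] [Fintype J] (c : κ → Curve) (t : κ → ℝ) (A : J → κ → ℂ),
      (DenseInWindows (fun j => edgeForm c t (A j)) ∨
        ∃ m : J → ℂ, m ≠ 0 ∧ AbsConv c t (fun k => ∑ j, m j * A j k)) ∧
      ∀ m : J → ℂ, m ≠ 0 →
        (∃ B : ℝ, ∀ s : ℂ, 3 / 2 < s.re → ‖∑ j, m j * logForm c t (A j) s‖ ≤ B) →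
        ¬ DenseInWindows (fun j => edgeForm c t (A j))) ∧
    (∀ (κ : Type) [Fintype κ] (c : κ → Curve) (t : κ → ℝ) (b : κ → ℂ), AbsConv c t b →
      ∃ Φ : ℂ → ℂ, ContinuousOn Φ {s | 3 / 2 ≤ s.re} ∧
        (∃ B : ℝ, ∀ s : ℂ, 3 / 2 ≤ s.re → ‖Φ s‖ ≤ B) ∧
        ∀ s : ℂ, 3 / 2 < s.re → Φ s = logForm c t b s) ∧
    (∀ (κ : Type) [Fintype κ] (c : κ → Curve) (t : κ → ℝ),
      (∀ b : κ → ℂ, b ≠ 0 → ¬ AbsConv c t b) →
      DenseInWindows (fun k τ => edgeValue (c k).W (τ + t k))) ∧
    ∀ c : Curve, Xor (DenseInWindows fun _ : Unit => edgeValue c.W)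
      (Summable fun p : Nat.Primes => ‖trace c.W p‖ * ((p : ℕ) : ℝ) ^ (-(3 / 2) : ℝ)) := by
  classical
  -- translation of the Euler factors
  have hfr : ∀ (c : Curve) v, frob c.W v = ((Pool.Agent.TH339.MP.av c.W v : ℝ) : ℂ) := by
    intro c v
    have h1 : (Nat.card {xy : (𝓞 c.K ⧸ v.asIdeal) × (𝓞 c.K ⧸ v.asIdeal) //
            ((c.W v).map (Ideal.Quotient.mk v.asIdeal)).toAffine.Equation xy.1 xy.2}) =
        Pool.Agent.TH339.MP.affc ((c.W v).map (Ideal.Quotient.mk v.asIdeal)) := by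
      unfold Pool.Agent.TH339.MP.affc
      refine Nat.card_congr (Equiv.subtypeEquivRight fun q => ?_)
      exact WeierstrassCurve.Affine.equation_iff ..
    unfold frob
    rw [h1]
    unfold Pool.Agent.TH339.MP.av Pool.Agent.TH339.MP.nm
    push_cast
    rfl
  have hei : ∀ (c : Curve) v s, eulerInv c.W v s =
      (Pool.Agent.Y774.FP.BW c.W v).eval ((Pool.Agent.H921R2.TatePole.nm v : ℂ) ^ (-s)) := by
    intro c v s
    have hn : Ideal.absNorm v.asIdeal ≠ 0 := (Pool.Agent.Y774.MD.nm_pos v).ne'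
    unfold eulerInv
    rw [Pool.Agent.Y774.FP.BW_eval, hfr, Pool.Agent.TH339.MP.cpow_two _ hn]
    unfold Pool.Agent.Y774.FP.ev Pool.Agent.H921R2.TatePole.nm
    push_cast
    rfl
  set P : Curve → ℕ → Polynomial ℂ := fun c =>
    Pool.Agent.Y774.MD.GP (Pool.Agent.Y774.FP.BW c.W) 1 with hP
  have hgood : ∀ (c : Curve) (p : ℕ), p.Prime → Pool.Agent.Y774.MD.GoodAt (P c p) p :=
    fun c p hp => Pool.Agent.Y774.FP.BW_goodAt c.W hp
  have heul : ∀ c : Curve, ∃ (D : ℕ) (C : ℝ), Pool.Agent.Y774.MD.IsEuler (P c) D 0 C {2, 3} := by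
    intro c
    obtain ⟨C, hC⟩ := Pool.Agent.Y774.FP.euler (Module.finrank ℚ c.K)
    exact ⟨_, C, hC c.K le_rfl c.W⟩
  choose D C hE using heul
  have hL : ∀ (c : Curve) (s : ℂ), 3 / 2 < s.re →
      LSeries c.W s = Pool.Agent.Y774.MD.LQ (P c) (s - 1 / 2) := by
    intro c s hs
    have h1 : 1 < (s - 1 / 2).re := by
      rw [Complex.sub_re]
      norm_num
      linarith
    rw [← (Pool.Agent.Y774.FP.BW_tempered c.W).LFun_eq h1]
    have h2 : ((((1 : ℝ) / 2 : ℝ) : ℂ) + (s - 1 / 2)) = s := by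
      push_cast
      ring
    rw [h2]
    unfold LSeries Pool.Agent.TH958.BV.LFun Pool.Agent.TH958.BV.localFactor
    exact tprod_congr fun v => by rw [hei]; rfl
  have hlog : ∀ (c : Curve) (s : ℂ), 3 / 2 < s.re →
      logL c.W s = Pool.Agent.Y774.JD.LL (P c) (s - 1 / 2) := by
    intro c s hs
    have h1 : 1 ≤ (s - 1 / 2).re := by
      rw [Complex.sub_re]
      norm_num
      linarith
    unfold logL Pool.Agent.Y774.JD.LL
    have h2 : Function.Injective (fun p : Nat.Primes => (p : ℕ)) := Subtype.val_injective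
    rw [← h2.tsum_eq (f := fun p => Pool.Agent.Y774.JD.lt (P c) p (s - 1 / 2))]
    · refine tsum_congr fun p => ?_
      rw [hP, Pool.Agent.Y774.JD.lt_GP c.W p.2 h1]
      refine finsum_mem_congr rfl fun v _ => ?_
      rw [hei, sub_add_cancel]
    · intro p hp
      by_contra h3
      refine hp ?_
      show Pool.Agent.Y774.JD.lt (P c) p (s - 1 / 2) = 0
      unfold Pool.Agent.Y774.JD.lt
      rw [if_neg fun h => h3 ⟨⟨p, h⟩, rfl⟩]
  have hpt : ∀ σ τ : ℝ, (3 / 2 + (σ : ℂ) + τ * Complex.I : ℂ) - 1 / 2 =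
      1 + σ + τ * Complex.I := by
    intro σ τ
    ring
  have hre : ∀ σ τ : ℝ, 0 < σ → 3 / 2 < (3 / 2 + (σ : ℂ) + τ * Complex.I : ℂ).re := by
    intro σ τ hσ
    have h1 : (3 / 2 + (σ : ℂ) + τ * Complex.I : ℂ).re = 3 / 2 + σ := by
      have h2 : (3 / 2 + (σ : ℂ) + τ * Complex.I : ℂ) = ((3 / 2 + σ : ℝ) : ℂ) + τ * Complex.I := by
        push_cast
        ring
      rw [h2, Complex.add_re, Complex.ofReal_re, Complex.mul_I_re, Complex.ofReal_im]
      ring
    rw [h1]
    linarith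
  have hel : ∀ (c : Curve) (τ : ℝ), edgeLog c.W τ = Pool.Agent.Y774.JD.lE (P c) τ := by
    intro c τ
    unfold edgeLog Pool.Agent.Y774.JD.lE limUnder
    congr 1
    refine Filter.map_congr ?_
    filter_upwards [self_mem_nhdsWithin] with σ hσ
    rw [hlog c _ (hre σ τ hσ), hpt]
  -- the boundary values
  have hbv : ∀ c : Curve, ∀ᵐ τ : ℝ,
      Tendsto (fun σ : ℝ => logL c.W (3 / 2 + σ + τ * Complex.I)) (𝓝[>] 0)
          (𝓝 (edgeLog c.W τ)) ∧
        Tendsto (fun σ : ℝ => LSeries c.W (3 / 2 + σ + τ * Complex.I)) (𝓝[>] 0)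
          (𝓝 (edgeValue c.W τ)) ∧ edgeValue c.W τ = Complex.exp (edgeLog c.W τ) := by
    intro c
    filter_upwards [Pool.Agent.Y774.JD.log_edge' (hE c) (hgood c)] with τ hτ
    have h1 : Tendsto (fun σ : ℝ => logL c.W (3 / 2 + σ + τ * Complex.I)) (𝓝[>] 0)
        (𝓝 (edgeLog c.W τ)) := by
      rw [hel]
      refine hτ.1.congr' ?_
      filter_upwards [self_mem_nhdsWithin] with σ hσ
      rw [hlog c _ (hre σ τ hσ), hpt]
    have h2 : Tendsto (fun σ : ℝ => LSeries c.W (3 / 2 + σ + τ * Complex.I)) (𝓝[>] 0)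
        (𝓝 (Complex.exp (edgeLog c.W τ))) := by
      refine ((Complex.continuous_exp.tendsto _).comp h1).congr' ?_
      filter_upwards [self_mem_nhdsWithin] with σ hσ
      have hσ' : (0 : ℝ) < σ := hσ
      rw [Function.comp_apply, hlog c _ (hre σ τ hσ), hL c _ (hre σ τ hσ), hpt,
        Pool.Agent.Y774.JD.exp_LL (hE c) (hgood c) (by simp [hσ'])]
    have h3 : edgeValue c.W τ = Complex.exp (edgeLog c.W τ) := h2.limUnder_eq
    refine ⟨h1, ?_, h3⟩
    rw [h3]
    exact h2
  -- the coefficients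
  have htr : ∀ (c : Curve) (p : ℕ), trace c.W p = Pool.Agent.Y774.JD.ap c.W p := by
    intro c p
    unfold trace Pool.Agent.Y774.JD.ap
    exact finsum_mem_congr rfl fun v _ => hfr c v
  have hconv : ∀ (κ : Type) [Fintype κ] (c : κ → Curve) (t : κ → ℝ) (b : κ → ℂ),
      AbsConv c t b ↔ Summable fun p : ℕ => if p.Prime then
        ‖∑ k, b k * (Pool.Agent.Y774.MD.cc (P (c k)) {2, 3} p *
          Pool.Agent.Y774.MD.rot p (t k))‖ else 0 := by
    intro κ _ c t b
    have h2 : Function.Injective (fun p : Nat.Primes => (p : ℕ)) := Subtype.val_injective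
    have h3 := h2.summable_iff (f := fun p : ℕ => if p.Prime then
      ‖∑ k, b k * (trace (c k).W p * (p : ℂ) ^ (-(t k * Complex.I)))‖ *
        (p : ℝ) ^ (-(3 / 2) : ℝ) else 0) (fun p hp => by
      rw [if_neg fun h => hp ⟨⟨p, h⟩, rfl⟩])
    have h4 : AbsConv c t b ↔ Summable fun p : ℕ => if p.Prime then
      ‖∑ k, b k * (trace (c k).W p * (p : ℂ) ^ (-(t k * Complex.I)))‖ *
        (p : ℝ) ^ (-(3 / 2) : ℝ) else 0 := by
      rw [← h3]
      unfold AbsConv
      refine Iff.of_eq (congrArg Summable (funext fun p => ?_))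
      simp only [Function.comp_apply]
      rw [if_pos p.2]
    rw [h4]
    refine summable_congr_cofinite ?_
    have h5 : ∀ᶠ p : ℕ in cofinite, p ∉ ({2, 3} : Finset ℕ) :=
      ({2, 3} : Finset ℕ).finite_toSet.compl_mem_cofinite
    filter_upwards [h5] with p hpE
    split_ifs with hp
    · have hp0 : (0 : ℝ) < (p : ℝ) ^ (-(3 / 2) : ℝ) :=
        Real.rpow_pos_of_pos (by exact_mod_cast hp.pos) _
      have h6 : ∀ k, b k * (Pool.Agent.Y774.MD.cc (P (c k)) {2, 3} p *
          Pool.Agent.Y774.MD.rot p (t k)) =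
          (((p : ℝ) ^ (-(3 / 2) : ℝ) : ℝ) : ℂ) *
            (b k * (trace (c k).W p * (p : ℂ) ^ (-(t k * Complex.I)))) := by
        intro k
        have h7 : Pool.Agent.Y774.MD.rot p (t k) = (p : ℂ) ^ (-(t k * Complex.I)) := by
          rw [Pool.Agent.Y774.MD.natCast_cpow_eq hp.pos]
          unfold Pool.Agent.Y774.MD.rot
          congr 1
          ring
        rw [hP, Pool.Agent.Y774.JD.cc_GP (c k).W hp hpE, htr, h7]
        ring
      simp_rw [h6]
      rw [← Finset.mul_sum, norm_mul, Complex.norm_real, Real.norm_of_nonneg hp0.le, mul_comm]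
    · rfl
  -- the forms
  have hform : ∀ (κ : Type) [Fintype κ] (c : κ → Curve) (t : κ → ℝ) (b : κ → ℂ) (s : ℂ),
      3 / 2 < s.re → logForm c t b s =
        Pool.Agent.Y774.JD.lc (fun k => P (c k)) t b (s - 1 / 2) := by
    intro κ _ c t b s hs
    unfold logForm Pool.Agent.Y774.JD.lc
    refine Finset.sum_congr rfl fun k _ => ?_
    rw [hlog (c k) _ (by simpa using hs)]
    congr 2
    ring
  have hsum : ∀ (κ J : Type) [Fintype κ] [Fintype J] (A : J → κ → ℂ) (m : J → ℂ) (x : κ → ℂ),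
      ∑ j, m j * ∑ k, A j k * x k = ∑ k, (∑ j, m j * A j k) * x k := by
    intro κ J _ _ A m x
    simp_rw [Finset.mul_sum, Finset.sum_mul]
    rw [Finset.sum_comm]
    exact Finset.sum_congr rfl fun k _ => Finset.sum_congr rfl fun j _ => by ring
  have hdense : ∀ (κ J : Type) [Fintype κ] [Fintype J] (c : κ → Curve) (t : κ → ℝ)
      (A : J → κ → ℂ), (∀ m : J → ℂ, m ≠ 0 → ¬ AbsConv c t (fun k => ∑ j, m j * A j k)) →
      DenseInWindows (fun j => edgeForm c t (A j)) := by
    intro κ J _ _ c t A hdiv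
    have h1 : (fun j => edgeForm c t (A j)) =
        Pool.Agent.Y774.JD.GF (fun k => P (c k)) t A := by
      funext j τ
      unfold edgeForm Pool.Agent.Y774.JD.GF
      exact Finset.sum_congr rfl fun k _ => by rw [hel]
    rw [h1]
    refine Pool.Agent.Y774.JD.visits_of _ fun v ε hε => ?_
    refine Pool.Agent.Y774.JD.dense_forms (fun k => hE (c k)) (fun k => hgood (c k)) t A
      (fun m hm => ?_) v hε
    have h2 := hdiv m hm
    rw [hconv] at h2
    unfold Pool.Agent.Y774.JD.cf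
    simp only [hsum κ J]
    exact h2
  have hext : ∀ (κ : Type) [Fintype κ] (c : κ → Curve) (t : κ → ℝ) (b : κ → ℂ), AbsConv c t b →
      ∃ Φ : ℂ → ℂ, ContinuousOn Φ {s | 3 / 2 ≤ s.re} ∧
        (∃ B : ℝ, ∀ s : ℂ, 3 / 2 ≤ s.re → ‖Φ s‖ ≤ B) ∧
        ∀ s : ℂ, 3 / 2 < s.re → Φ s = logForm c t b s := by
    intro κ _ c t b hb
    rw [hconv] at hb
    obtain ⟨Φ, h1, ⟨B, h2⟩, h3⟩ := Pool.Agent.Y774.JD.bounded_ext (fun k => hE (c k))
      (fun k => hgood (c k)) t b hb
    have hsub : ∀ s : ℂ, (s - 1 / 2).re = s.re - 1 / 2 := by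
      intro s
      rw [Complex.sub_re]
      norm_num
    refine ⟨fun s => Φ (s - 1 / 2), ?_, ⟨B, fun s hs => h2 _ ?_⟩, fun s hs => ?_⟩
    · refine h1.comp (by fun_prop) fun s hs => ?_
      have hs' : 3 / 2 ≤ s.re := hs
      show 1 ≤ (s - 1 / 2).re
      rw [hsub]
      linarith
    · rw [hsub]
      linarith
    · rw [hform κ c t b s hs]
      refine h3 _ ?_
      rw [hsub]
      linarith
  have hnot : ∀ (κ J : Type) [Fintype κ] [Fintype J] (c : κ → Curve) (t : κ → ℝ)
      (A : J → κ → ℂ) (m : J → ℂ), m ≠ 0 →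
        (∃ B : ℝ, ∀ s : ℂ, 3 / 2 < s.re → ‖∑ j, m j * logForm c t (A j) s‖ ≤ B) →
        ¬ DenseInWindows (fun j => edgeForm c t (A j)) := by
    rintro κ J _ _ c t A m hm ⟨B, hB⟩ hd
    have h1 := Pool.Agent.Y774.JD.bounded_edge (fun k => hE (c k)) (fun k => hgood (c k)) t
      (fun k => ∑ j, m j * A j k) (B := B) (fun s hs => by
        have hs' : 3 / 2 < (s + 1 / 2).re := by
          rw [Complex.add_re]
          norm_num
          linarith
        have h2 := hB (s + 1 / 2) hs'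
        refine le_trans (le_of_eq ?_) h2
        congr 1
        unfold logForm Pool.Agent.Y774.JD.lc
        rw [hsum κ J]
        refine Finset.sum_congr rfl fun k _ => ?_
        rw [hlog (c k) _ (by simpa using hs')]
        congr 2
        ring)
    refine Pool.Agent.Y774.JD.not_both (G := fun j => edgeForm c t (A j)) hd hm (B := B) ?_
    filter_upwards [h1] with τ hτ
    refine le_trans (le_of_eq ?_) hτ
    congr 1
    unfold edgeForm
    rw [hsum κ J]
    exact Finset.sum_congr rfl fun k _ => by rw [hel]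
  have hvals : ∀ (κ : Type) [Fintype κ] (c : κ → Curve) (t : κ → ℝ),
      (∀ b : κ → ℂ, b ≠ 0 → ¬ AbsConv c t b) →
      DenseInWindows (fun k τ => edgeValue (c k).W (τ + t k)) := by
    intro κ _ c t hdiv Ω hΩ hne
    have hid : ∀ (x : κ → ℂ) (j : κ), ∑ k, (if j = k then (1 : ℂ) else 0) * x k = x j := by
      intro x j
      simp
    have h1 := hdense κ κ c t (fun j k => if j = k then 1 else 0) (fun m hm => by
      have h2 : (fun k => ∑ j, m j * (if j = k then (1 : ℂ) else 0)) = m := by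
        funext k
        simp
      rw [h2]
      exact hdiv m hm)
    have hcont : Continuous fun x : κ → ℂ => fun k => Complex.exp (x k) := by fun_prop
    -- a point with nonzero coordinates
    obtain ⟨v, hv⟩ := hne
    obtain ⟨ε, hε, hball⟩ := Metric.isOpen_iff.1 hΩ v hv
    set w : κ → ℂ := fun k => if v k = 0 then ((ε / 2 : ℝ) : ℂ) else v k with hw
    have hw0 : ∀ k, w k ≠ 0 := by
      intro k
      simp only [hw]
      split_ifs with h2
      · exact_mod_cast (half_pos hε).ne'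
      · exact h2
    have hwΩ : w ∈ Ω := by
      refine hball ?_
      rw [Metric.mem_ball, dist_eq_norm]
      refine (pi_norm_lt_iff hε).2 fun k => ?_
      rw [Pi.sub_apply]
      simp only [hw]
      split_ifs with h2
      · rw [h2, sub_zero, Complex.norm_real, Real.norm_of_nonneg (half_pos hε).le]
        exact half_lt_self hε
      · rw [sub_self, norm_zero]
        exact hε
    obtain ⟨ρ, hρ, T₀, hT₀, h3⟩ := h1 _ (hΩ.preimage hcont) ⟨fun k => Complex.log (w k), by
      show (fun k => Complex.exp (Complex.log (w k))) ∈ Ω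
      have : (fun k => Complex.exp (Complex.log (w k))) = w :=
        funext fun k => Complex.exp_log (hw0 k)
      rw [this]
      exact hwΩ⟩
    refine ⟨ρ, hρ, T₀, hT₀, fun a T hT => (h3 a T hT).trans ?_⟩
    have hae : ∀ᵐ τ : ℝ, ∀ k, edgeValue (c k).W (τ + t k) =
        Complex.exp (edgeLog (c k).W (τ + t k)) := by
      rw [ae_all_iff]
      intro k
      filter_upwards [Pool.Agent.Y774.MD.ae_shift (hbv (c k)) (t k)] with τ hτ
      exact hτ.2.2
    refine measure_mono_ae ?_
    filter_upwards [hae] with τ hτ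
    rintro ⟨h4, h5⟩
    refine ⟨h4, ?_⟩
    have h6 : (fun k => Complex.exp (edgeForm c t (fun k' => if k = k' then 1 else 0) τ)) ∈ Ω := h5
    have h7 : (fun k => Complex.exp (edgeForm c t (fun k' => if k = k' then 1 else 0) τ)) =
        fun k => edgeValue (c k).W (τ + t k) := by
      funext k
      rw [hτ k]
      unfold edgeForm
      rw [hid (fun k => edgeLog (c k).W (τ + t k)) k]
    rw [h7] at h6
    exact h6
  refine ⟨fun c => ⟨fun s hs => ?_, hbv c⟩, fun κ J _ _ c t A => ⟨?_, hnot κ J c t A⟩, hext, hvals,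
    fun c => ?_⟩
  · rw [hlog c s hs, hL c s hs]
    refine Pool.Agent.Y774.JD.exp_LL (hE c) (hgood c) ?_
    rw [Complex.sub_re]
    norm_num
    linarith
  · by_cases h1 : ∀ m : J → ℂ, m ≠ 0 → ¬ AbsConv c t (fun k => ∑ j, m j * A j k)
    · exact Or.inl (hdense κ J c t A h1)
    · push Not at h1
      exact Or.inr h1
  · -- one curve
    have hone : ∀ b : Unit → ℂ, AbsConv (fun _ : Unit => c) (fun _ => 0) b ↔
        Summable fun p : Nat.Primes => ‖b ()‖ * (‖trace c.W p‖ * ((p : ℕ) : ℝ) ^ (-(3 / 2) : ℝ)) := by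
      intro b
      unfold AbsConv
      refine Iff.of_eq (congrArg Summable (funext fun p => ?_))
      simp only [Finset.univ_unique, Finset.sum_singleton, PUnit.default_eq_unit,
        Complex.ofReal_zero, zero_mul, neg_zero, Complex.cpow_zero, mul_one, norm_mul, mul_assoc]
    by_cases h1 : Summable fun p : Nat.Primes => ‖trace c.W p‖ * ((p : ℕ) : ℝ) ^ (-(3 / 2) : ℝ)
    · refine Or.inr ⟨h1, fun hd => ?_⟩
      obtain ⟨Φ, -, ⟨B, hB⟩, hΦ⟩ := hext Unit (fun _ => c) (fun _ => 0) (fun _ => 1)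
        ((hone _).2 (by simpa using h1))
      refine Pool.Agent.Y774.JD.not_both (G := fun _ : Unit => edgeValue c.W) hd
        (m := fun _ => 1) (fun h => one_ne_zero (congrFun h ())) (B := Real.exp B) ?_
      filter_upwards [hbv c] with τ ⟨h2, _, h3⟩
      simp only [Finset.univ_unique, Finset.sum_singleton, one_mul]
      rw [h3, Complex.norm_exp]
      refine Real.exp_le_exp.2 ((Complex.re_le_norm _).trans (le_of_tendsto h2.norm ?_))
      filter_upwards [self_mem_nhdsWithin] with σ hσ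
      have h4 := hΦ _ (hre σ τ hσ)
      have h5 := hB _ (hre σ τ hσ).le
      rw [h4] at h5
      unfold logForm at h5
      simpa using h5
    · refine Or.inl ⟨?_, h1⟩
      have h2 := hvals Unit (fun _ => c) (fun _ => 0) (fun b hb h3 => by
        rw [hone] at h3
        have hb0 : ‖b ()‖ ≠ 0 := by
          rw [norm_ne_zero_iff]
          intro h4
          exact hb (funext fun _ => h4)
        exact h1 ((summable_mul_left_iff hb0).1 h3))
      simpa only [add_zero] using h2

end Pool.Agent.Results.MP_7ed9c3_nt.JointDenseness
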