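import Pool.Agent.Y684.L2.Inst

/-!
# The edge line over all number fields, by Rankin-Selberg

`E` is an elliptic curve over a number field `K` such that the mean square of the normalised
coefficients `a_v / √q_v` is at most one; this is proved here for all modular elliptic curves over `ℚ`,
and without any hypothesis for the curve `y² + xy + y = x³ + 4x - 6`.
For a number field `F ⊇ K` and `D ∈ F^*` let `E_D / F` be the twist of `E` over `F` by the quadratic
character of `F(√D)/F`.  The analytic continuation of `L(E_D / F, s)` is not known for a general `F`,
not even for `K = ℚ` and `D = 1`.  The definitions are in `Pool.Agent.Y684.L2.Defs` and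
`Pool.Agent.TH322.BC.Defs`.
-/

set_option autoImplicit false

namespace Pool.Agent.Results.MP_7ed9c3_nt.RankinSelbergEdge

open Pool.Agent.Y684.L2.Edge

/-- Linear relations, strict inequalities, the sum of the squares of the orders, irreducible twists
and base change, for `E` with mean square at most one; modular elliptic curves over `ℚ` have this
property; and `y² + xy + y = x³ + 4x - 6` has it. -/
theorem result :
    (∀ (K : Type) [Field K] [NumberField K] (E : WeierstrassCurve K), E.IsElliptic →
      MeanSquareLeOne E → Relations E ∧ StrictRelations E ∧ SquaresOfOrders E ∧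
        IrreducibleTwists E ∧ BaseChange E) ∧
    (∀ E : WeierstrassCurve ℚ, E.IsElliptic → Modular E → MeanSquareLeOne E) ∧
    ((⟨1, 0, 1, 4, -6⟩ : WeierstrassCurve ℚ).IsElliptic ∧
      MeanSquareLeOne (⟨1, 0, 1, 4, -6⟩ : WeierstrassCurve ℚ)) :=
  ⟨fun K _ _ E hE h => main K E hE h, modular, X14_elliptic, modular X14 X14_elliptic modular14⟩

end Pool.Agent.Results.MP_7ed9c3_nt.RankinSelbergEdge
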